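import Mathlib

/-!
# Thin, residually connected coset geometries of C-groups are flag-transitive

For every C-group `(G, S)`, of any rank and possibly infinite: if its coset geometry is thin and
residually connected, then it is flag-transitive. So there is no C-group of rank at least `4` whose
coset geometry is thin and residually connected but not flag-transitive.
-/

set_option autoImplicit false

namespace Pool.Agent.Results.MP_0d307c_co.ThinImpliesFlagTransitive

variable {G : Type*} [Group G] {r : ℕ}

/-- `(G, {ρ 0, ..., ρ (r-1)})` is a C-group of rank `r`: the `ρ i` are `r` distinct involutions that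
generate `G` and satisfy the intersection property. -/
structure IsCGroup (ρ : Fin r → G) : Prop where
  distinct : Function.Injective ρ
  involution : ∀ i, orderOf (ρ i) = 2
  generate : Subgroup.closure (Set.range ρ) = ⊤
  intersection : ∀ I J : Set (Fin r), Subgroup.closure (ρ '' I) ⊓ Subgroup.closure (ρ '' J) =
    Subgroup.closure (ρ '' (I ∩ J))

/-- The subgroup `G_i`, generated by the `ρ j` with `j ≠ i`. -/
def par (ρ : Fin r → G) (i : Fin r) : Subgroup G := Subgroup.closure (ρ '' {j | j ≠ i})

/-- The right coset `H g`. -/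
def rightCoset (H : Subgroup G) (g : G) : Set G := {x | ∃ h ∈ H, x = h * g}

/-- The elements of the coset geometry of `(G, ρ)`: an element has a type `i` and is a right coset
`G_i g`. -/
@[ext] structure Element (ρ : Fin r → G) where
  /-- the type of the element -/
  type : Fin r
  /-- the right coset -/
  coset : Set G
  isCoset : ∃ g, coset = rightCoset (par ρ type) g

/-- Two elements are incident if the cosets intersect. -/
def Incident {ρ : Fin r → G} (x y : Element ρ) : Prop := (x.coset ∩ y.coset).Nonempty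

/-- A flag is a set of pairwise incident elements. -/
def IsFlag {ρ : Fin r → G} (F : Set (Element ρ)) : Prop := ∀ x ∈ F, ∀ y ∈ F, Incident x y

/-- A chamber is a flag that contains an element of each of the `r` types. -/
def IsChamber {ρ : Fin r → G} (C : Set (Element ρ)) : Prop :=
  IsFlag C ∧ ∀ i, ∃ x ∈ C, x.type = i

/-- The geometry is thin: every flag with `r - 1` elements lies in exactly two chambers. -/
def Thin (ρ : Fin r → G) : Prop :=
  ∀ F : Set (Element ρ), IsFlag F → F.ncard + 1 = r → {C | IsChamber C ∧ F ⊆ C}.ncard = 2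

/-- The elements of the residue of `F`: those not in `F`, of a type not met by `F`, incident with
every element of `F`. Its rank is `r - |F|`. -/
def residue {ρ : Fin r → G} (F : Set (Element ρ)) : Set (Element ρ) :=
  {x | x ∉ F ∧ (∀ y ∈ F, x.type ≠ y.type) ∧ ∀ y ∈ F, Incident x y}

/-- The incidence graph of the residue of `F`. -/
def incidenceGraph {ρ : Fin r → G} (F : Set (Element ρ)) : SimpleGraph (residue F) where
  Adj x y := x ≠ y ∧ Incident x.1 y.1
  symm := ⟨fun _ _ h => ⟨h.1.symm, by
    obtain ⟨z, hz⟩ := h.2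
    exact ⟨z, hz.2, hz.1⟩⟩⟩
  loopless := ⟨fun _ h => h.1 rfl⟩

/-- The geometry is residually connected: the incidence graph of every residue of rank at least `2`
is connected, and every residue of rank `1` is nonempty. -/
def ResiduallyConnected (ρ : Fin r → G) : Prop :=
  (∀ F : Set (Element ρ), IsFlag F → F.ncard + 2 ≤ r → (incidenceGraph F).Connected) ∧
  (∀ F : Set (Element ρ), IsFlag F → F.ncard + 1 = r → (residue F).Nonempty)

/-- Right multiplication by `g`, as a map on the elements of the geometry. -/
def act {ρ : Fin r → G} (g : G) (x : Element ρ) : Element ρ where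
  type := x.type
  coset := (fun y => y * g) '' x.coset
  isCoset := by
    obtain ⟨a, ha⟩ := x.isCoset
    refine ⟨a * g, ?_⟩
    rw [ha]
    ext y
    constructor
    · rintro ⟨_, ⟨h, hh, rfl⟩, rfl⟩
      exact ⟨h, hh, by simp [mul_assoc]⟩
    · rintro ⟨h, hh, rfl⟩
      exact ⟨h * a, ⟨h, hh, rfl⟩, by simp [mul_assoc]⟩

/-- The geometry is flag-transitive: `G`, acting by right multiplication, is transitive on the
chambers. -/
def FlagTransitive (ρ : Fin r → G) : Prop :=
  ∀ C D : Set (Element ρ), IsChamber C → IsChamber D → ∃ g : G, act g '' C = D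

/-! ### Proof -/

section proof

variable {ρ : Fin r → G}

theorem mem_rightCoset {H : Subgroup G} {g x : G} : x ∈ rightCoset H g ↔ x * g⁻¹ ∈ H := by
  constructor
  · rintro ⟨h, hh, rfl⟩
    simpa using hh
  · intro h
    exact ⟨x * g⁻¹, h, by simp⟩

theorem self_mem_rightCoset (H : Subgroup G) (g : G) : g ∈ rightCoset H g := by
  rw [mem_rightCoset]; simp

theorem rightCoset_eq {H : Subgroup G} {g x : G} (h : x ∈ rightCoset H g) :
    rightCoset H g = rightCoset H x := by
  rw [mem_rightCoset] at h
  ext y
  rw [mem_rightCoset, mem_rightCoset]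
  constructor
  · intro hy
    have := H.mul_mem hy (H.inv_mem h)
    simpa [mul_assoc] using this
  · intro hy
    have := H.mul_mem hy h
    simpa [mul_assoc] using this

theorem Element.coset_eq (x : Element ρ) {g : G} (h : g ∈ x.coset) :
    x.coset = rightCoset (par ρ x.type) g := by
  obtain ⟨a, ha⟩ := x.isCoset
  rw [ha] at h ⊢
  exact rightCoset_eq h

theorem Incident.symm {x y : Element ρ} (h : Incident x y) : Incident y x := by
  obtain ⟨z, hz⟩ := h
  exact ⟨z, hz.2, hz.1⟩

theorem eq_of_incident {x y : Element ρ} (h : Incident x y) (ht : x.type = y.type) : x = y := by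
  obtain ⟨z, hz1, hz2⟩ := h
  have h1 := x.coset_eq hz1
  have h2 := y.coset_eq hz2
  rw [← ht, ← h1] at h2
  exact Element.ext ht h2.symm

/-- The element `G_i g`. -/
def elt (ρ : Fin r → G) (i : Fin r) (g : G) : Element ρ := ⟨i, rightCoset (par ρ i) g, g, rfl⟩

theorem IsFlag.inj {F : Set (Element ρ)} (hF : IsFlag F) : Set.InjOn Element.type F :=
  fun x hx y hy h => eq_of_incident (hF x hx y hy) h

theorem IsFlag.finite {F : Set (Element ρ)} (hF : IsFlag F) : F.Finite :=
  Set.Finite.of_finite_image (Set.toFinite (Element.type '' F)) hF.inj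

theorem IsFlag.ncard_image {F : Set (Element ρ)} (hF : IsFlag F) :
    (Element.type '' F).ncard = F.ncard := hF.inj.ncard_image

theorem IsFlag.mono {F F' : Set (Element ρ)} (hF : IsFlag F) (h : F' ⊆ F) : IsFlag F' :=
  fun x hx y hy => hF x (h hx) y (h hy)

theorem IsChamber.ncard {C : Set (Element ρ)} (hC : IsChamber C) : C.ncard = r := by
  rw [← hC.1.ncard_image]
  have : Element.type '' C = Set.univ := by
    ext i
    simp only [Set.mem_univ, iff_true]
    obtain ⟨x, hx, rfl⟩ := hC.2 i
    exact ⟨x, hx, rfl⟩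
  rw [this, Set.ncard_univ, Nat.card_eq_fintype_card, Fintype.card_fin]

theorem IsFlag.ncard_le {F : Set (Element ρ)} (hF : IsFlag F) : F.ncard ≤ r := by
  rw [← hF.ncard_image]
  calc (Element.type '' F).ncard ≤ (Set.univ : Set (Fin r)).ncard :=
        Set.ncard_le_ncard (Set.subset_univ _)
    _ = r := by rw [Set.ncard_univ, Nat.card_eq_fintype_card, Fintype.card_fin]

theorem chamber_of_ncard {F : Set (Element ρ)} (hF : IsFlag F) (h : F.ncard = r) :
    IsChamber F := by
  refine ⟨hF, fun i => ?_⟩
  have h1 : Element.type '' F = Set.univ := by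
    apply Set.eq_of_subset_of_ncard_le (Set.subset_univ _)
    rw [hF.ncard_image, Set.ncard_univ, Nat.card_eq_fintype_card, Fintype.card_fin, h]
  have : i ∈ Element.type '' F := by rw [h1]; trivial
  obtain ⟨x, hx, hxi⟩ := this
  exact ⟨x, hx, hxi⟩

theorem insert_flag {F : Set (Element ρ)} (hF : IsFlag F) {x : Element ρ} (hx : x ∈ residue F) :
    IsFlag (insert x F) := by
  intro a ha b hb
  rcases ha with ha | ha <;> rcases hb with hb | hb
  · rw [ha, hb]
    obtain ⟨g, hg⟩ := x.isCoset
    have : g ∈ x.coset := by rw [hg]; exact self_mem_rightCoset _ _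
    exact ⟨g, this, this⟩
  · rw [ha]; exact hx.2.2 b hb
  · rw [hb]; exact (hx.2.2 a ha).symm
  · exact hF a ha b hb

theorem ncard_insert' {F : Set (Element ρ)} (hF : IsFlag F) {x : Element ρ} (hx : x ∈ residue F) :
    (insert x F).ncard = F.ncard + 1 := Set.ncard_insert_of_notMem hx.1 hF.finite

theorem residue_nonempty (hrc : ResiduallyConnected ρ) {F : Set (Element ρ)} (hF : IsFlag F)
    (h : F.ncard < r) : (residue F).Nonempty := by
  rcases Nat.lt_or_ge (F.ncard + 1) r with h1 | h1
  · have := (hrc.1 F hF h1).nonempty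
    obtain ⟨x⟩ := this
    exact ⟨x.1, x.2⟩
  · exact hrc.2 F hF (by omega)

/-- Every flag lies in a chamber. -/
theorem exists_chamber (hrc : ResiduallyConnected ρ) : ∀ (k : ℕ) (F : Set (Element ρ)), IsFlag F →
    F.ncard + k = r → ∃ C, IsChamber C ∧ F ⊆ C := by
  intro k
  induction k with
  | zero => intro F hF h; exact ⟨F, chamber_of_ncard hF (by omega), subset_rfl⟩
  | succ k ih =>
    intro F hF h
    obtain ⟨x, hx⟩ := residue_nonempty hrc hF (by omega)
    obtain ⟨C, hC, hFC⟩ := ih (insert x F) (insert_flag hF hx) (by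
      rw [ncard_insert' hF hx]; omega)
    exact ⟨C, hC, (Set.subset_insert x F).trans hFC⟩

theorem exists_chamber' (hrc : ResiduallyConnected ρ) {F : Set (Element ρ)} (hF : IsFlag F) :
    ∃ C, IsChamber C ∧ F ⊆ C :=
  exists_chamber hrc (r - F.ncard) F hF (by have := hF.ncard_le; omega)

/-- Two chambers are adjacent if they share a flag with `r - 1` elements. -/
def Adjc (C D : Set (Element ρ)) : Prop :=
  IsChamber C ∧ IsChamber D ∧ ∃ P, IsFlag P ∧ P.ncard + 1 = r ∧ P ⊆ C ∧ P ⊆ D

theorem mem_residue_of_chamber {F C : Set (Element ρ)} (hC : IsChamber C) (hFC : F ⊆ C)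
    {x : Element ρ} (hx : x ∈ C) (hxF : x ∉ F) : x ∈ residue F := by
  refine ⟨hxF, fun y hy ht => hxF ?_, fun y hy => hC.1 x hx y (hFC hy)⟩
  rw [hC.1.inj hx (hFC hy) ht]
  exact hy

theorem gallery (hrc : ResiduallyConnected ρ) : ∀ (k : ℕ) (F : Set (Element ρ)), IsFlag F →
    F.ncard + k = r → ∀ C D, IsChamber C → IsChamber D → F ⊆ C → F ⊆ D →
    Relation.ReflTransGen Adjc C D := by
  intro k
  induction k with
  | zero =>
    intro F hF h C D hC hD hFC hFD
    have h1 : F = C := Set.eq_of_subset_of_ncard_le hFC (by rw [hC.ncard]; omega) hC.1.finite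
    have h2 : F = D := Set.eq_of_subset_of_ncard_le hFD (by rw [hD.ncard]; omega) hD.1.finite
    rw [← h1, ← h2]
  | succ k ih =>
    intro F hF h C D hC hD hFC hFD
    rcases Nat.eq_zero_or_pos k with rfl | hk
    · exact Relation.ReflTransGen.single ⟨hC, hD, F, hF, by omega, hFC, hFD⟩
    · have hne : ∀ E : Set (Element ρ), IsChamber E → F ⊆ E → ∃ x ∈ E, x ∉ F := by
        intro E hE hFE
        by_contra hcon
        push Not at hcon
        have : E.ncard ≤ F.ncard := Set.ncard_le_ncard hcon hF.finite
        rw [hE.ncard] at this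
        omega
      obtain ⟨x, hxC, hxF⟩ := hne C hC hFC
      obtain ⟨y, hyD, hyF⟩ := hne D hD hFD
      have hx := mem_residue_of_chamber hC hFC hxC hxF
      have hy := mem_residue_of_chamber hD hFD hyD hyF
      have hconn := hrc.1 F hF (by omega)
      have hreach := hconn.preconnected ⟨x, hx⟩ ⟨y, hy⟩
      have hstep : ∀ z : residue F, (incidenceGraph F).Reachable ⟨x, hx⟩ z →
          ∀ E, IsChamber E → F ⊆ E → z.1 ∈ E → Relation.ReflTransGen Adjc C E := by
        intro z hz
        rw [SimpleGraph.reachable_iff_reflTransGen] at hz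
        induction hz with
        | refl =>
          intro E hE hFE hxE
          refine ih (insert x F) (insert_flag hF hx) (by rw [ncard_insert' hF hx]; omega) C E hC hE
            ?_ ?_
          · exact Set.insert_subset hxC hFC
          · exact Set.insert_subset hxE hFE
        | tail _ hbc ihz =>
          rename_i b c _
          intro E hE hFE hcE
          -- a chamber containing `F`, `b`, `c`
          have hb := insert_flag hF b.2
          have hcb : c.1 ∈ residue (insert b.1 F) := by
            have hne : c.1 ≠ b.1 := fun h => hbc.1 (Subtype.ext h.symm)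
            refine ⟨?_, ?_, ?_⟩
            · rintro (h | h)
              · exact hne h
              · exact c.2.1 h
            · rintro w (rfl | hw) ht
              · exact hne (eq_of_incident hbc.2.symm ht)
              · exact c.2.2.1 w hw ht
            · rintro w (rfl | hw)
              · exact hbc.2.symm
              · exact c.2.2.2 w hw
          obtain ⟨E', hE', hsub⟩ := exists_chamber' hrc (insert_flag hb hcb)
          have hcE' : c.1 ∈ E' := hsub (Set.mem_insert _ _)
          have hbE' : b.1 ∈ E' := hsub (Set.mem_insert_of_mem _ (Set.mem_insert _ _))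
          have hFE' : F ⊆ E' := fun w hw =>
            hsub (Set.mem_insert_of_mem _ (Set.mem_insert_of_mem _ hw))
          have h1 := ihz E' hE' hFE' hbE'
          have h2 := ih (insert c.1 F) (insert_flag hF c.2) (by rw [ncard_insert' hF c.2]; omega)
            E' E hE' hE (Set.insert_subset hcE' hFE') (Set.insert_subset hcE hFE)
          exact h1.trans h2
      exact hstep ⟨y, hy⟩ hreach D hD hFD hyD

/-- The standard chamber of `g`: the cosets `G_i g`. -/
def std (ρ : Fin r → G) (g : G) : Set (Element ρ) := Set.range fun i => elt ρ i g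

theorem std_chamber (g : G) : IsChamber (std ρ g) := by
  refine ⟨?_, fun i => ⟨elt ρ i g, ⟨i, rfl⟩, rfl⟩⟩
  rintro _ ⟨i, rfl⟩ _ ⟨j, rfl⟩
  exact ⟨g, self_mem_rightCoset _ _, self_mem_rightCoset _ _⟩

theorem act_std (g h : G) : act h '' std ρ g = std ρ (g * h) := by
  have key : ∀ i, act h (elt ρ i g) = elt ρ i (g * h) := by
    intro i
    refine Element.ext rfl ?_
    have h1 : g * h ∈ (act h (elt ρ i g)).coset := ⟨g, self_mem_rightCoset _ _, rfl⟩
    exact Element.coset_eq _ h1
  ext x
  constructor
  · rintro ⟨_, ⟨i, rfl⟩, rfl⟩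
    exact ⟨i, (key i).symm⟩
  · rintro ⟨i, rfl⟩
    exact ⟨_, ⟨i, rfl⟩, key i⟩

theorem rho_mem_par {i j : Fin r} (h : j ≠ i) : ρ j ∈ par ρ i :=
  Subgroup.subset_closure ⟨j, h, rfl⟩

theorem rho_notMem_par (hρ : IsCGroup ρ) (i : Fin r) : ρ i ∉ par ρ i := by
  intro h
  have h1 : ρ i ∈ Subgroup.closure (ρ '' {i}) := Subgroup.subset_closure ⟨i, rfl, rfl⟩
  have h2 : ρ i ∈ Subgroup.closure (ρ '' {i}) ⊓ Subgroup.closure (ρ '' {j | j ≠ i}) := ⟨h1, h⟩
  rw [hρ.intersection] at h2
  have h3 : ({i} : Set (Fin r)) ∩ {j | j ≠ i} = ∅ := by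
    ext j; simp
  rw [h3, Set.image_empty, Subgroup.closure_empty, Subgroup.mem_bot] at h2
  have := hρ.involution i
  rw [h2, orderOf_one] at this
  omega

theorem elt_rho {i j : Fin r} (h : j ≠ i) (g : G) : elt ρ i (ρ j * g) = elt ρ i g := by
  refine Element.ext rfl ?_
  refine (rightCoset_eq ?_).symm
  rw [mem_rightCoset]
  simpa using rho_mem_par h

theorem std_step (hρ : IsCGroup ρ) (ht : Thin ρ) {g : G} {D : Set (Element ρ)}
    (h : Adjc (std ρ g) D) : ∃ g', D = std ρ g' := by
  obtain ⟨hC, hD, P, hP, hPr, hPC, hPD⟩ := h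
  -- the missing type
  obtain ⟨i, hi⟩ : ∃ i, i ∉ Element.type '' P := by
    by_contra hcon
    push Not at hcon
    have : Element.type '' P = Set.univ := Set.eq_univ_of_forall hcon
    have h2 := hP.ncard_image
    rw [this, Set.ncard_univ, Nat.card_eq_fintype_card, Fintype.card_fin] at h2
    omega
  have hPmem : ∀ x ∈ P, ∃ j, j ≠ i ∧ x = elt ρ j g := by
    intro x hx
    obtain ⟨j, hj⟩ := hPC hx
    refine ⟨j, ?_, hj.symm⟩
    rintro rfl
    exact hi ⟨x, hx, by rw [← hj]; rfl⟩
  have hP2 : P ⊆ std ρ (ρ i * g) := by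
    intro x hx
    obtain ⟨j, hji, rfl⟩ := hPmem x hx
    exact ⟨j, elt_rho hji.symm g⟩
  have hne : std ρ g ≠ std ρ (ρ i * g) := by
    intro heq
    have h1 : elt ρ i g ∈ std ρ (ρ i * g) := by rw [← heq]; exact ⟨i, rfl⟩
    obtain ⟨j, hj⟩ := h1
    have hji : j = i := congrArg Element.type hj
    subst hji
    have h2 : ρ j * g ∈ (elt ρ j g).coset := by
      rw [← hj]; exact self_mem_rightCoset _ _
    have h3 : ρ j * g ∈ rightCoset (par ρ j) g := h2
    rw [mem_rightCoset] at h3
    apply rho_notMem_par hρ j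
    simpa using h3
  have h2 := ht P hP hPr
  rw [Set.ncard_eq_two] at h2
  obtain ⟨A, B, hAB, hset⟩ := h2
  have m1 : std ρ g ∈ ({A, B} : Set (Set (Element ρ))) := by
    rw [← hset]; exact ⟨hC, hPC⟩
  have m2 : std ρ (ρ i * g) ∈ ({A, B} : Set (Set (Element ρ))) := by
    rw [← hset]; exact ⟨std_chamber _, hP2⟩
  have m3 : D ∈ ({A, B} : Set (Set (Element ρ))) := by
    rw [← hset]; exact ⟨hD, hPD⟩
  rcases m1 with m1 | m1 <;> rcases m2 with m2 | m2 <;> rcases m3 with m3 | m3
  · exact absurd (m1.trans m2.symm) hne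
  · exact absurd (m1.trans m2.symm) hne
  · exact ⟨g, m3.trans m1.symm⟩
  · exact ⟨ρ i * g, m3.trans (Set.mem_singleton_iff.1 m2).symm⟩
  · exact ⟨ρ i * g, m3.trans m2.symm⟩
  · exact ⟨g, m3.trans (Set.mem_singleton_iff.1 m1).symm⟩
  · exact absurd (m1.trans m2.symm) hne
  · exact absurd (m1.trans m2.symm) hne

end proof

/-- **Main theorem.** Let `(G, ρ)` be a C-group (of any rank `r`, `G` possibly infinite). If its
coset geometry is thin and residually connected, then it is flag-transitive. -/
theorem result {G : Type*} [Group G] {r : ℕ} (ρ : Fin r → G) (hρ : IsCGroup ρ) (hthin : Thin ρ)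
    (hrc : ResiduallyConnected ρ) : FlagTransitive ρ := by
  have hstd : ∀ D : Set (Element ρ), IsChamber D → ∃ g, D = std ρ g := by
    intro D hD
    have hgal := gallery hrc r (∅ : Set (Element ρ)) (fun x hx => absurd hx (Set.notMem_empty x))
      (by rw [Set.ncard_empty]; omega) (std ρ 1) D (std_chamber 1) hD (Set.empty_subset _)
      (Set.empty_subset _)
    induction hgal with
    | refl => exact ⟨1, rfl⟩
    | tail _ h ih =>
      obtain ⟨g, rfl⟩ := ih h.1
      exact std_step hρ hthin h
  intro C D hC hD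
  obtain ⟨g, rfl⟩ := hstd C hC
  obtain ⟨h, rfl⟩ := hstd D hD
  refine ⟨g⁻¹ * h, ?_⟩
  rw [act_std]
  simp

end Pool.Agent.Results.MP_0d307c_co.ThinImpliesFlagTransitive
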